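import Pool.Agent.H798.BV.Stm3
import Pool.Agent.H798.BV.Elem

/-!
# (TAY) Second order upper bound of `|z - a|^p`, sharp near the unit circle
-/

set_option autoImplicit false

open Set

namespace Pool.Agent.H585.BV

open Pool.Agent.H798.BV

namespace Tay

lemma Ph_nonneg (p : ℝ) {R : ℝ} (hR : 0 < R) : 0 ≤ Ph p R := by
  unfold Ph
  have h1 := Real.log_le_sub_one_of_pos (Real.rpow_pos_of_pos hR p)
  rw [Real.log_rpow hR] at h1
  linarith

lemma Ph_sq (p : ℝ) {R : ℝ} (hR : 0 < R) : (R ^ (p / 2) - 1) ^ 2 ≤ Ph p R := by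
  unfold Ph
  have h1 := Real.log_le_sub_one_of_pos (Real.rpow_pos_of_pos hR (p / 2))
  rw [Real.log_rpow hR] at h1
  have h2 : R ^ p = R ^ (p / 2) * R ^ (p / 2) := by
    rw [← Real.rpow_add hR]
    congr 1
    ring
  rw [h2]
  nlinarith

lemma Ph_lower {p ν : ℝ} (hp : 1 < p) (hν : 0 < ν) (hν1 : ν < 1) :
    ∃ c : ℝ, 0 < c ∧ ∀ R : ℝ, 0 < R → ν / 2 ≤ |R - 1| → c * (1 + R ^ p) ≤ Ph p R := by
  have hp2 : 0 < p / 2 := by linarith
  obtain ⟨κ1, h1⟩ : ∃ κ1, κ1 = (1 + ν / 2) ^ (p / 2) - 1 := ⟨_, rfl⟩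
  obtain ⟨κ2, h2⟩ : ∃ κ2, κ2 = 1 - (1 - ν / 2) ^ (p / 2) := ⟨_, rfl⟩
  have h1p : 0 < κ1 := by
    rw [h1, sub_pos]
    exact Real.one_lt_rpow (by linarith) hp2
  have h2p : 0 < κ2 := by
    rw [h2, sub_pos]
    exact Real.rpow_lt_one (by linarith) (by linarith) hp2
  obtain ⟨κ, hκ⟩ : ∃ κ, κ = min κ1 κ2 := ⟨_, rfl⟩
  have hκp : 0 < κ := by
    rw [hκ]
    exact lt_min h1p h2p
  refine ⟨(3 / κ ^ 2 + 2)⁻¹, by positivity, fun R hR hR1 => ?_⟩
  have key : κ ≤ |R ^ (p / 2) - 1| := by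
    rcases le_abs.1 hR1 with h | h
    · have h3 : (1 + ν / 2) ^ (p / 2) ≤ R ^ (p / 2) :=
        Real.rpow_le_rpow (by linarith) (by linarith) hp2.le
      have h4 : κ ≤ κ1 := hκ ▸ min_le_left _ _
      exact (by linarith : κ ≤ R ^ (p / 2) - 1).trans (le_abs_self _)
    · have h3 : R ^ (p / 2) ≤ (1 - ν / 2) ^ (p / 2) :=
        Real.rpow_le_rpow hR.le (by linarith) hp2.le
      have h4 : κ ≤ κ2 := hκ ▸ min_le_right _ _
      exact (by linarith : κ ≤ -(R ^ (p / 2) - 1)).trans (neg_le_abs _)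
  obtain ⟨y, hy⟩ : ∃ y, y = R ^ (p / 2) := ⟨_, rfl⟩
  have hy2 : R ^ p = y ^ 2 := by
    rw [hy, sq, ← Real.rpow_add hR]
    congr 1
    ring
  have h5 := Ph_sq p hR
  rw [← hy] at key h5
  refine le_trans ?_ h5
  rw [hy2, inv_mul_le_iff₀ (by positivity)]
  have h6 : κ ^ 2 ≤ (y - 1) ^ 2 := by
    rw [← sq_abs (y - 1)]
    exact pow_le_pow_left₀ hκp.le key 2
  have h7 : 3 ≤ 3 / κ ^ 2 * (y - 1) ^ 2 := by
    rw [div_mul_eq_mul_div, le_div_iff₀ (by positivity)]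
    linarith
  nlinarith [sq_nonneg (y - 2)]

lemma taylor2 {f f' f'' : ℝ → ℝ} {a M : ℝ} (ha : 0 ≤ a)
    (h1 : ∀ t ∈ Icc 0 a, HasDerivAt f (f' t) t) (h2 : ∀ t ∈ Icc 0 a, HasDerivAt f' (f'' t) t)
    (h3 : ∀ t ∈ Icc 0 a, f'' t ≤ M) : f a ≤ f 0 + f' 0 * a + M / 2 * a ^ 2 := by
  have h0 : (0 : ℝ) ∈ Icc 0 a := ⟨le_rfl, ha⟩
  have hg : ∀ t ∈ Icc 0 a, HasDerivAt (fun t => M * t - f' t) (M * 1 - f'' t) t := fun t ht =>
    ((hasDerivAt_id t).const_mul M).sub (h2 t ht)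
  have hm1 : MonotoneOn (fun t => M * t - f' t) (Icc 0 a) := by
    refine monotoneOn_of_deriv_nonneg (convex_Icc 0 a)
      (fun t ht => (hg t ht).continuousAt.continuousWithinAt)
      (fun t ht => (hg t (interior_subset ht)).differentiableAt.differentiableWithinAt)
      (fun t ht => ?_)
    rw [(hg t (interior_subset ht)).deriv]
    linarith [h3 t (interior_subset ht)]
  have hk : ∀ t ∈ Icc 0 a, HasDerivAt (fun t => f' 0 * t + M / 2 * t ^ 2 - f t)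
      (f' 0 * 1 + M / 2 * (2 * t ^ 1 * 1) - f' t) t := fun t ht =>
    (((hasDerivAt_id t).const_mul (f' 0)).add (((hasDerivAt_id t).pow 2).const_mul (M / 2))).sub
      (h1 t ht)
  have hm2 : MonotoneOn (fun t => f' 0 * t + M / 2 * t ^ 2 - f t) (Icc 0 a) := by
    refine monotoneOn_of_deriv_nonneg (convex_Icc 0 a)
      (fun t ht => (hk t ht).continuousAt.continuousWithinAt)
      (fun t ht => (hk t (interior_subset ht)).differentiableAt.differentiableWithinAt)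
      (fun t ht => ?_)
    have ht' := interior_subset ht
    rw [(hk t ht').deriv]
    have h4 := hm1 h0 ht' ht'.1
    simp only [mul_zero, zero_sub] at h4
    nlinarith
  have h5 := hm2 h0 ⟨ha, le_rfl⟩ ha
  simp only [mul_zero, zero_add, ne_eq, OfNat.ofNat_ne_zero, not_false_eq_true, zero_pow,
    zero_sub] at h5
  linarith

lemma norm_rpow (z : ℂ) (p : ℝ) : ‖z‖ ^ p = (z.re ^ 2 + z.im ^ 2) ^ (p / 2) := by
  have h1 : z.re ^ 2 + z.im ^ 2 = ‖z‖ ^ (2 : ℝ) := by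
    rw [Real.rpow_two, Complex.sq_norm, Complex.normSq_apply]
    ring
  rw [h1, ← Real.rpow_mul (norm_nonneg z)]
  congr 1
  ring

lemma near {p η : ℝ} (hp : 1 < p) (hη : 0 < η) : ∃ ν : ℝ, 0 < ν ∧ ν < 1 ∧
    ∀ (a : ℝ) (z : ℂ), 0 ≤ a → a ≤ ν → |‖z‖ - 1| ≤ ν →
      ‖z - a‖ ^ p ≤ ‖z‖ ^ p - p * (a * (chi p z).re) + p / 2 * a ^ 2 * (1 + (p - 2) * q2 z)
        + η * a ^ 2 := by
  obtain ⟨δ, hδ⟩ : ∃ δ, δ = 2 * η / (p * (1 + 17 * |p - 2|)) := ⟨_, rfl⟩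
  have hab := abs_nonneg (p - 2)
  have hδ0 : 0 < δ := by
    rw [hδ]
    positivity
  have hδη : p * (1 + 17 * |p - 2|) * δ = 2 * η := by
    rw [hδ]
    field_simp
  -- continuity at 1
  have hcont : ∀ α : ℝ, ∃ ν : ℝ, 0 < ν ∧ ∀ U : ℝ, |U - 1| < ν → |U ^ α - 1| < δ := by
    intro α
    have h1 : ContinuousAt (fun U : ℝ => U ^ α) 1 :=
      Real.continuousAt_rpow_const 1 α (Or.inl one_ne_zero)
    obtain ⟨ν, hν, h2⟩ := Metric.continuousAt_iff.1 h1 δ hδ0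
    refine ⟨ν, hν, fun U hU => ?_⟩
    have h3 := h2 (x := U) (by rwa [Real.dist_eq])
    rwa [Real.dist_eq, Real.one_rpow] at h3
  obtain ⟨ν1, hν1, h1⟩ := hcont (p / 2 - 1)
  obtain ⟨ν2, hν2, h2⟩ := hcont (p / 2 - 2)
  obtain ⟨ν, hν⟩ : ∃ ν, ν = min (min δ (1 / 20)) (min (ν1 / 9) (ν2 / 9)) := ⟨_, rfl⟩
  have a1 : ν ≤ δ := hν ▸ (min_le_left _ _).trans (min_le_left _ _)
  have a2 : ν ≤ 1 / 20 := hν ▸ (min_le_left _ _).trans (min_le_right _ _)
  have a3 : ν ≤ ν1 / 9 := hν ▸ (min_le_right _ _).trans (min_le_left _ _)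
  have a4 : ν ≤ ν2 / 9 := hν ▸ (min_le_right _ _).trans (min_le_right _ _)
  have a5 : 0 < ν := by
    rw [hν]
    exact lt_min (lt_min hδ0 (by norm_num)) (lt_min (by linarith) (by linarith))
  refine ⟨ν, a5, by linarith, fun a z ha haν hz => ?_⟩
  obtain ⟨x, hx⟩ : ∃ x, x = z.re := ⟨_, rfl⟩
  obtain ⟨y, hy⟩ : ∃ y, y = z.im := ⟨_, rfl⟩
  have hr2 : ‖z‖ ^ 2 = x ^ 2 + y ^ 2 := by
    rw [Complex.sq_norm, Complex.normSq_apply, hx, hy]
    ring
  have hz' := abs_le.1 hz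
  have hr0 := norm_nonneg z
  have hr : |x ^ 2 + y ^ 2 - 1| ≤ 3 * ν := by
    rw [← hr2, abs_le]
    constructor <;> nlinarith
  have hxr : x ^ 2 ≤ 4 := by
    have := (abs_le.1 hr).2
    nlinarith [sq_nonneg y]
  have hxa : |x| ≤ 2 := abs_le_of_sq_le_sq (by linarith) (by norm_num)
  have hx' := abs_le.1 hxa
  have hU : ∀ t ∈ Icc 0 a, |(x - t) ^ 2 + y ^ 2 - 1| ≤ 8 * ν := by
    intro t ht
    have ht1 : t ≤ ν := ht.2.trans haν
    have ht0 : 0 ≤ t := ht.1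
    have e : (x - t) ^ 2 + y ^ 2 - 1 = (x ^ 2 + y ^ 2 - 1) + t * (t - 2 * x) := by ring
    rw [e]
    refine (abs_add_le _ _).trans ?_
    have h3 : |t * (t - 2 * x)| ≤ ν * 5 := by
      rw [abs_mul, abs_of_nonneg ht0]
      refine mul_le_mul ht1 ?_ (abs_nonneg _) a5.le
      rw [abs_le]
      constructor <;> linarith
    linarith
  have hU0 : ∀ t ∈ Icc 0 a, 0 < (x - t) ^ 2 + y ^ 2 := by
    intro t ht
    have := (abs_le.1 (hU t ht)).1
    linarith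
  have hd0 : ∀ t : ℝ, HasDerivAt (fun t : ℝ => (x - t) ^ 2 + y ^ 2) (-(2 * (x - t))) t := by
    intro t
    have h3 := (((hasDerivAt_const t x).sub (hasDerivAt_id t)).pow 2).add_const (y ^ 2)
    refine h3.congr_deriv ?_
    simp
  have hd1 : ∀ t ∈ Icc 0 a, HasDerivAt (fun t : ℝ => ((x - t) ^ 2 + y ^ 2) ^ (p / 2))
      (-(p * ((x - t) * ((x - t) ^ 2 + y ^ 2) ^ (p / 2 - 1)))) t := by
    intro t ht
    refine ((hd0 t).rpow_const (Or.inl (hU0 t ht).ne')).congr_deriv ?_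
    ring
  have hd2 : ∀ t ∈ Icc 0 a, HasDerivAt
      (fun t : ℝ => -(p * ((x - t) * ((x - t) ^ 2 + y ^ 2) ^ (p / 2 - 1))))
      (p * (((x - t) ^ 2 + y ^ 2) ^ (p / 2 - 1) +
        (p - 2) * ((x - t) ^ 2 * ((x - t) ^ 2 + y ^ 2) ^ (p / 2 - 2)))) t := by
    intro t ht
    have h3 : HasDerivAt (fun t : ℝ => ((x - t) ^ 2 + y ^ 2) ^ (p / 2 - 1))
        (-(2 * (x - t)) * (p / 2 - 1) * ((x - t) ^ 2 + y ^ 2) ^ (p / 2 - 1 - 1)) t :=
      (hd0 t).rpow_const (Or.inl (hU0 t ht).ne')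
    have h4 : HasDerivAt (fun t : ℝ => x - t) (0 - 1) t :=
      (hasDerivAt_const t x).sub (hasDerivAt_id t)
    have h5 := ((h4.mul h3).const_mul p).neg
    refine h5.congr_deriv ?_
    have e : p / 2 - 1 - 1 = p / 2 - 2 := by ring
    rw [e]
    ring
  -- the bound of the second derivative
  have hq : |x ^ 2 - q2 z| ≤ 3 * ν := by
    have e : x ^ 2 - q2 z = (x ^ 2 / (1 + (x ^ 2 + y ^ 2))) * (x ^ 2 + y ^ 2 - 1) := by
      unfold q2
      rw [hr2, ← hx]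
      have : 1 + (x ^ 2 + y ^ 2) ≠ 0 := by positivity
      field_simp
      ring
    rw [e, abs_mul]
    have h3 : |x ^ 2 / (1 + (x ^ 2 + y ^ 2))| ≤ 1 := by
      rw [abs_of_nonneg (by positivity), div_le_one (by positivity)]
      nlinarith [sq_nonneg y]
    calc |x ^ 2 / (1 + (x ^ 2 + y ^ 2))| * |x ^ 2 + y ^ 2 - 1| ≤ 1 * (3 * ν) :=
          mul_le_mul h3 hr (abs_nonneg _) zero_le_one
      _ = 3 * ν := one_mul _
  have hd3 : ∀ t ∈ Icc 0 a, p * (((x - t) ^ 2 + y ^ 2) ^ (p / 2 - 1) +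
        (p - 2) * ((x - t) ^ 2 * ((x - t) ^ 2 + y ^ 2) ^ (p / 2 - 2))) ≤
      p * (1 + (p - 2) * q2 z) + 2 * η := by
    intro t ht
    have ht1 : t ≤ ν := ht.2.trans haν
    have ht0 : 0 ≤ t := ht.1
    have h3 := hU t ht
    obtain ⟨A, hA⟩ : ∃ A, A = ((x - t) ^ 2 + y ^ 2) ^ (p / 2 - 1) := ⟨_, rfl⟩
    obtain ⟨B, hB⟩ : ∃ B, B = ((x - t) ^ 2 + y ^ 2) ^ (p / 2 - 2) := ⟨_, rfl⟩
    have hA1 : |A - 1| < δ := hA ▸ h1 _ (by linarith)
    have hB1 : |B - 1| < δ := hB ▸ h2 _ (by linarith)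
    rw [← hA, ← hB]
    have h4 : |(x - t) ^ 2 * B - q2 z| ≤ 17 * δ := by
      have e : (x - t) ^ 2 * B - q2 z = (x - t) ^ 2 * (B - 1) + t * (t - 2 * x) +
        (x ^ 2 - q2 z) := by ring
      rw [e]
      have h5 : |(x - t) ^ 2 * (B - 1)| ≤ 9 * δ := by
        rw [abs_mul, abs_of_nonneg (sq_nonneg _)]
        refine mul_le_mul ?_ hB1.le (abs_nonneg _) (by norm_num)
        nlinarith
      have h6 : |t * (t - 2 * x)| ≤ ν * 5 := by
        rw [abs_mul, abs_of_nonneg ht0]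
        refine mul_le_mul ht1 ?_ (abs_nonneg _) a5.le
        rw [abs_le]
        constructor <;> linarith
      have h7 := abs_add_le ((x - t) ^ 2 * (B - 1) + t * (t - 2 * x)) (x ^ 2 - q2 z)
      have h8 := abs_add_le ((x - t) ^ 2 * (B - 1)) (t * (t - 2 * x))
      linarith
    have h5 : (p - 2) * ((x - t) ^ 2 * B - q2 z) ≤ |p - 2| * (17 * δ) := by
      refine (le_abs_self _).trans ?_
      rw [abs_mul]
      exact mul_le_mul_of_nonneg_left h4 hab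
    have h6 : A - 1 ≤ δ := (le_abs_self _).trans hA1.le
    have h7 : A + (p - 2) * ((x - t) ^ 2 * B) - (1 + (p - 2) * q2 z) ≤
        (1 + 17 * |p - 2|) * δ := by
      have e : A + (p - 2) * ((x - t) ^ 2 * B) - (1 + (p - 2) * q2 z) =
        (A - 1) + (p - 2) * ((x - t) ^ 2 * B - q2 z) := by ring
      rw [e]
      linarith
    have h8 := mul_le_mul_of_nonneg_left h7 (by linarith : (0 : ℝ) ≤ p)
    have h9 : p * ((1 + 17 * |p - 2|) * δ) = 2 * η := by rw [← mul_assoc, hδη]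
    rw [h9] at h8
    linarith
  have h3 := taylor2 ha hd1 hd2 hd3
  have e1 : ‖z - a‖ ^ p = ((x - a) ^ 2 + y ^ 2) ^ (p / 2) := by
    rw [norm_rpow, hx, hy]
    simp
  have e2 : ‖z‖ ^ p = ((x - 0) ^ 2 + y ^ 2) ^ (p / 2) := by
    rw [norm_rpow, hx, hy, sub_zero]
  have e3 : (chi p z).re = x * ((x - 0) ^ 2 + y ^ 2) ^ (p / 2 - 1) := by
    unfold chi
    rw [Complex.re_ofReal_mul, norm_rpow, hx, hy, sub_zero, mul_comm]
    congr 2
    ring
  rw [e1, e2, e3]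
  rw [sub_zero] at h3 ⊢
  linarith

lemma conj_re (p a : ℝ) (z : ℂ) : ((starRingEnd ℂ) (chi p z) * (a : ℂ)).re =
    a * (chi p z).re := by
  rw [Complex.mul_re, Complex.conj_re, Complex.conj_im, Complex.ofReal_re, Complex.ofReal_im]
  ring

lemma sq_le_rpow {a β : ℝ} (ha : 0 ≤ a) (ha1 : a ≤ 1) (hβ : 0 ≤ β) (hβ2 : β ≤ 2) :
    a ^ 2 ≤ a ^ β := by
  rw [← Real.rpow_two]
  exact Real.rpow_le_rpow_of_exponent_ge' ha ha1 hβ hβ2

lemma breg (h : S_B1Q) {p : ℝ} (hp : 1 < p) : ∃ K1 : ℝ, 0 < K1 ∧ ∀ (a : ℝ) (z : ℂ), 0 ≤ a → a ≤ 1 →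
    ‖z - a‖ ^ p ≤ ‖z‖ ^ p - p * (a * (chi p z).re) +
      K1 * (a ^ (min p 2) * (1 + ‖z - a‖ ^ p)) := by
  rcases le_or_gt p 2 with hp2 | hp2
  · refine ⟨6, by norm_num, fun a z ha ha1 => ?_⟩
    have h1 := t_B1 p hp hp2 z a
    rw [conj_re, Complex.norm_real, Real.norm_eq_abs, abs_of_nonneg ha] at h1
    rw [min_eq_left hp2]
    have h2 : a ^ p ≤ a ^ p * (1 + ‖z - a‖ ^ p) := by
      have h3 : 0 ≤ ‖z - (a : ℂ)‖ ^ p := Real.rpow_nonneg (norm_nonneg _) _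
      exact le_mul_of_one_le_right (Real.rpow_nonneg ha _) (by linarith)
    linarith
  · obtain ⟨K, hK, h1⟩ := h p hp2.le
    refine ⟨K * (2 + 2 ^ p), by positivity, fun a z ha ha1 => ?_⟩
    have h2 := h1 z a
    rw [conj_re, Complex.norm_real, Real.norm_eq_abs, abs_of_nonneg ha] at h2
    rw [min_eq_right hp2.le, Real.rpow_two]
    obtain ⟨R, hR⟩ : ∃ R, R = ‖z - (a : ℂ)‖ := ⟨_, rfl⟩
    have hR0 : 0 ≤ R := hR ▸ norm_nonneg _
    have hRp : 0 ≤ R ^ p := Real.rpow_nonneg hR0 _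
    have hzR : ‖z‖ ≤ R + 1 := by
      have h3 := norm_add_le (z - (a : ℂ)) (a : ℂ)
      rw [sub_add_cancel, Complex.norm_real, Real.norm_eq_abs, abs_of_nonneg ha, ← hR] at h3
      linarith
    have hz0 := norm_nonneg z
    have h4 : ‖z‖ ^ p ≤ 2 ^ p * (1 + R ^ p) := by
      have hp0 : 0 ≤ p := by linarith
      refine (Real.rpow_le_rpow hz0 hzR hp0).trans ?_
      rcases le_total R 1 with h5 | h5
      · have h6 : (R + 1) ^ p ≤ 2 ^ p := Real.rpow_le_rpow (by linarith) (by linarith) hp0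
        exact h6.trans (le_mul_of_one_le_right (by positivity) (by linarith))
      · have h6 : (R + 1) ^ p ≤ (2 * R) ^ p := Real.rpow_le_rpow (by linarith) (by linarith) hp0
        rw [Real.mul_rpow (by norm_num) hR0] at h6
        refine h6.trans (mul_le_mul_of_nonneg_left (by linarith) (by positivity))
    have h5 : ‖z‖ ^ (p - 2) ≤ 1 + ‖z‖ ^ p := by
      have h6 : 0 ≤ ‖z‖ ^ p := Real.rpow_nonneg hz0 _
      rcases le_total ‖z‖ 1 with h7 | h7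
      · have := Real.rpow_le_one hz0 h7 (by linarith : (0 : ℝ) ≤ p - 2)
        linarith
      · have := Real.rpow_le_rpow_of_exponent_le h7 (by linarith : p - 2 ≤ p)
        linarith
    have h6 : a ^ p ≤ a ^ 2 := by
      rw [← Real.rpow_two]
      exact Real.rpow_le_rpow_of_exponent_ge' ha ha1 (by norm_num) hp2.le
    rw [← hR] at h2 ⊢
    have h7 : ‖z‖ ^ (p - 2) * a ^ 2 + a ^ p ≤ (2 + 2 ^ p) * (a ^ 2 * (1 + R ^ p)) := by
      have ha2 : 0 ≤ a ^ 2 := sq_nonneg a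
      have h8 : ‖z‖ ^ (p - 2) * a ^ 2 ≤ (1 + 2 ^ p * (1 + R ^ p)) * a ^ 2 :=
        mul_le_mul_of_nonneg_right (by linarith) ha2
      have h9 : 0 ≤ a ^ 2 * R ^ p := mul_nonneg ha2 hRp
      have e : (2 + 2 ^ p) * (a ^ 2 * (1 + R ^ p)) = (1 + 2 ^ p * (1 + R ^ p)) * a ^ 2 + a ^ 2 +
        2 * (a ^ 2 * R ^ p) := by ring
      rw [e]
      linarith
    have h8 := mul_le_mul_of_nonneg_left h7 hK.le
    rw [← mul_assoc] at h8
    linarith

end Tay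

open Tay

/-- **(TAY)** -/
theorem t_TAY (h : S_B1Q) : S_TAY := by
  intro p hp η hη
  obtain ⟨ν, hν, hν1, hnear⟩ := near hp hη
  obtain ⟨c, hc, hlow⟩ := Ph_lower hp hν hν1
  obtain ⟨K1, hK1, hbreg⟩ := breg h hp
  have hab := abs_nonneg (p - 2)
  have hp0 : 0 < p := by linarith
  obtain ⟨D, hD⟩ : ∃ D, D = p * (1 + 2 * |p - 2|) := ⟨_, rfl⟩
  have hD0 : 0 < D := by
    rw [hD]
    positivity
  refine ⟨(K1 + D) / c, ν / 4, by positivity, by positivity, fun a ha haν z hz => ?_⟩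
  have hR : 0 < ‖z - a‖ := norm_pos_iff.2 (sub_ne_zero.2 hz)
  have hPh := Ph_nonneg p hR
  have hβ : 0 ≤ a ^ (min p 2) := Real.rpow_nonneg ha _
  rcases le_or_gt |‖z‖ - 1| ν with h1 | h1
  · have h2 := hnear a z ha (by linarith) h1
    have h3 : 0 ≤ (K1 + D) / c * (a ^ (min p 2) * Ph p ‖z - a‖) := by positivity
    linarith
  · have h2 : ν / 2 ≤ |‖z - a‖ - 1| := by
      have h3 : |‖z‖ - ‖z - (a : ℂ)‖| ≤ a := by
        refine (abs_norm_sub_norm_le z (z - (a : ℂ))).trans ?_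
        rw [sub_sub_cancel, Complex.norm_real, Real.norm_eq_abs, abs_of_nonneg ha]
      have h4 := abs_sub_le ‖z‖ ‖z - (a : ℂ)‖ 1
      linarith
    have h3 := hlow _ hR h2
    have h4 := hbreg a z ha (by linarith)
    obtain ⟨R, hRd⟩ : ∃ R, R = ‖z - (a : ℂ)‖ := ⟨_, rfl⟩
    rw [← hRd] at hR hPh h3 h4 ⊢
    obtain ⟨b, hb⟩ : ∃ b, b = a ^ (min p 2) := ⟨_, rfl⟩
    rw [← hb] at hβ h4 ⊢
    have hRp : 0 ≤ R ^ p := Real.rpow_nonneg hR.le _
    have h6 : a ^ 2 ≤ b := by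
      rw [hb]
      exact sq_le_rpow ha (by linarith) (le_min hp0.le (by norm_num)) (min_le_right _ _)
    have hq : |q2 z| ≤ 2 := by
      unfold q2
      have hz2 : z.re ^ 2 ≤ ‖z‖ ^ 2 := by
        rw [Complex.sq_norm, Complex.normSq_apply]
        nlinarith [sq_nonneg z.im]
      rw [abs_of_nonneg (by positivity), div_le_iff₀ (by positivity)]
      linarith
    have h7 : |1 + (p - 2) * q2 z| ≤ 1 + 2 * |p - 2| := by
      refine (abs_add_le _ _).trans ?_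
      rw [abs_one, abs_mul]
      have := mul_le_mul_of_nonneg_left hq hab
      linarith
    have h8 : -(D * b) ≤ p / 2 * a ^ 2 * (1 + (p - 2) * q2 z) := by
      have h9 : |p / 2 * a ^ 2 * (1 + (p - 2) * q2 z)| ≤ p * b * (1 + 2 * |p - 2|) := by
        rw [abs_mul, abs_of_nonneg (by positivity)]
        refine mul_le_mul ?_ h7 (abs_nonneg _) (by positivity)
        have h10 : p / 2 * a ^ 2 ≤ p * a ^ 2 :=
          mul_le_mul_of_nonneg_right (by linarith) (sq_nonneg a)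
        exact h10.trans (mul_le_mul_of_nonneg_left h6 hp0.le)
      have h11 := (abs_le.1 h9).1
      have e : p * b * (1 + 2 * |p - 2|) = D * b := by
        rw [hD]
        ring
      rw [e] at h11
      exact h11
    have h9 : 1 + R ^ p ≤ Ph p R / c := by
      rw [le_div_iff₀ hc]
      linarith
    have h10 : (K1 + D) * (b * (1 + R ^ p)) ≤ (K1 + D) / c * (b * Ph p R) := by
      have h11 := mul_le_mul_of_nonneg_left (mul_le_mul_of_nonneg_left h9 hβ)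
        (by linarith : 0 ≤ K1 + D)
      have e : (K1 + D) * (b * (Ph p R / c)) = (K1 + D) / c * (b * Ph p R) := by ring
      rwa [e] at h11
    have h11 : 0 ≤ D * (b * R ^ p) := by positivity
    have h12 : 0 ≤ η * a ^ 2 := by positivity
    have e : (K1 + D) * (b * (1 + R ^ p)) = K1 * (b * (1 + R ^ p)) + D * b + D * (b * R ^ p) := by
      ring
    rw [e] at h10
    linarith

end Pool.Agent.H585.BV
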